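import Mathlib

/-!
# The parameter `s` of `κ`
-/

set_option autoImplicit false

namespace Pool.Agent.Helper61.GD

/-- the root of `κ x² - x + κ` next to `σ` -/
theorem exists_s {κ : ℂ} (hκ : κ ≠ 0) (σ : ℝ) :
    ∃ s : ℂ, s ≠ 0 ∧ κ * (s + s⁻¹) = 1 ∧ ‖s - σ‖ ^ 2 ≤ ‖κ * σ ^ 2 - σ + κ‖ / ‖κ‖ := by
  obtain ⟨w, hw⟩ := IsAlgClosed.exists_pow_nat_eq (1 - 4 * κ ^ 2) (n := 2) (by norm_num)
  obtain ⟨s1, h1⟩ : ∃ s1, s1 = (1 - w) / (2 * κ) := ⟨_, rfl⟩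
  obtain ⟨s2, h2⟩ : ∃ s2, s2 = (1 + w) / (2 * κ) := ⟨_, rfl⟩
  have hm : s1 * s2 = 1 := by
    rw [h1, h2]
    field_simp
    linear_combination -hw
  have ha : κ * (s1 + s2) = 1 := by
    rw [h1, h2]
    field_simp
    ring
  have n1 : s1 ≠ 0 := left_ne_zero_of_mul_eq_one hm
  have n2 : s2 ≠ 0 := right_ne_zero_of_mul_eq_one hm
  have i1 : s1⁻¹ = s2 := inv_eq_of_mul_eq_one_right hm
  have i2 : s2⁻¹ = s1 := by rw [← i1, inv_inv]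
  have hp : ‖s1 - σ‖ * ‖s2 - σ‖ = ‖κ * σ ^ 2 - σ + κ‖ / ‖κ‖ := by
    rw [← norm_mul, ← norm_div]
    congr 1
    field_simp
    linear_combination κ * hm - σ * ha
  rcases le_total ‖s1 - σ‖ ‖s2 - σ‖ with h | h
  · refine ⟨s1, n1, by rw [i1]; exact ha, ?_⟩
    rw [← hp, sq]
    exact mul_le_mul_of_nonneg_left h (norm_nonneg _)
  · refine ⟨s2, n2, by rw [i2, add_comm]; exact ha, ?_⟩
    rw [← hp, sq]
    exact mul_le_mul_of_nonneg_right h (norm_nonneg _)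

/-- the real parameter -/
theorem exists_sigma {k : ℝ} (h0 : 0 < k) (h1 : k < 1 / 2) : ∃ σ : ℝ, 0 < σ ∧ σ < 1 ∧ k ≤ σ ∧ σ / (1 + σ ^ 2) = k := by
  have hc : ContinuousOn (fun x : ℝ => x / (1 + x ^ 2)) (Set.Icc 0 1) := by
    apply ContinuousOn.div continuousOn_id (by fun_prop)
    intro x _
    positivity
  have h2 := intermediate_value_Icc (zero_le_one' ℝ) hc
  obtain ⟨σ, ⟨hσ0, hσ1⟩, hσ⟩ := h2 (show k ∈ _ by
    constructor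
    · norm_num
      exact h0.le
    · norm_num
      linarith)
  simp only at hσ
  have a0 : 0 < σ := by
    rcases hσ0.lt_or_eq with h | h
    · exact h
    · rw [← h] at hσ
      norm_num at hσ
      linarith
  have a1 : σ < 1 := by
    rcases hσ1.lt_or_eq with h | h
    · exact h
    · rw [h] at hσ
      norm_num at hσ
      linarith
  refine ⟨σ, a0, a1, ?_, hσ⟩
  rw [← hσ, div_le_iff₀ (by positivity)]
  nlinarith [sq_nonneg σ, mul_pos a0 a0]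

/-- **Both parameters.** -/
theorem exists_pair {κ : ℂ} {c₀ w₀ : ℝ} (hc0 : 0 < c₀) (hc1 : c₀ ≤ 1 / 4) (hw0 : 0 < w₀) (hw1 : w₀ ≤ 1 / 4) (h1 : c₀ ≤ κ.re)
    (h2 : κ.re ≤ 1 / 2 + w₀) (h3 : |κ.im| ≤ w₀) :
    ∃ (σ : ℝ) (s : ℂ), 0 < σ ∧ σ < 1 ∧ c₀ ≤ σ ∧ s ≠ 0 ∧ κ * (s + s⁻¹) = 1 ∧ ‖κ - ((σ / (1 + σ ^ 2) : ℝ) : ℂ)‖ ≤ 3 * w₀ ∧
      ‖s - σ‖ ^ 2 ≤ 6 * w₀ / c₀ := by
  obtain ⟨k, hk⟩ : ∃ k, k = min κ.re (1 / 2 - w₀) := ⟨_, rfl⟩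
  have k0 : c₀ ≤ k := by rw [hk, le_min_iff]; exact ⟨h1, by linarith⟩
  have k1 : k < 1 / 2 := by rw [hk]; exact (min_le_right _ _).trans_lt (by linarith)
  have k2 : |κ.re - k| ≤ 2 * w₀ := by
    rw [hk]
    rcases min_cases κ.re (1 / 2 - w₀) with ⟨h, h'⟩ | ⟨h, h'⟩ <;> rw [h, abs_le] <;> constructor <;> linarith
  obtain ⟨σ, s0, s1, s2, s3⟩ := exists_sigma (hc0.trans_le k0) k1
  have hκ0 : κ ≠ 0 := by
    intro h
    rw [h, Complex.zero_re] at h1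
    linarith
  obtain ⟨s, t0, t1, t2⟩ := exists_s hκ0 σ
  have d : ‖κ - ((σ / (1 + σ ^ 2) : ℝ) : ℂ)‖ ≤ 3 * w₀ := by
    rw [s3]
    refine (Complex.norm_le_abs_re_add_abs_im _).trans ?_
    rw [Complex.sub_re, Complex.sub_im, Complex.ofReal_re, Complex.ofReal_im, sub_zero]
    linarith
  refine ⟨σ, s, s0, s1, k0.trans s2, t0, t1, d, t2.trans ?_⟩
  have hn : c₀ ≤ ‖κ‖ := h1.trans (Complex.re_le_norm κ)
  have e : κ * σ ^ 2 - σ + κ = (κ - ((σ / (1 + σ ^ 2) : ℝ) : ℂ)) * ((1 + σ ^ 2 : ℝ) : ℂ) := by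
    have h4 : ((1 + σ ^ 2 : ℝ) : ℂ) ≠ 0 := by
      rw [Ne, Complex.ofReal_eq_zero]
      positivity
    push_cast at h4 ⊢
    field_simp
    ring
  rw [e, norm_mul, Complex.norm_real, Real.norm_of_nonneg (by positivity)]
  rw [div_le_div_iff₀ (hc0.trans_le hn) hc0]
  have h5 : 1 + σ ^ 2 ≤ 2 := by nlinarith
  have h6 : ‖κ - ((σ / (1 + σ ^ 2) : ℝ) : ℂ)‖ * (1 + σ ^ 2) ≤ 3 * w₀ * 2 := mul_le_mul d h5 (by positivity) (by positivity)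
  have h7 := mul_le_mul h6 hn hc0.le (by positivity)
  nlinarith

end Pool.Agent.Helper61.GD
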