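import Pool.Agent.Helper61.GD.Run
import Pool.Agent.Helper61.GD.Root
import Pool.Agent.Helper57.PD.H3G
import Pool.Agent.Helper59.V8.Lens
import Pool.Agent.Helper2.GD.Glue

/-!
# The second leg for every positive plane diagram
-/

set_option autoImplicit false

namespace Pool.Agent.Helper61.GD

open Finset Pool.Agent.Helper61.UNI Pool.Agent.Helper85.Exp Pool.Agent.Helper2.PD Pool.Agent.Helper16.PD
open Pool.Agent.Helper30.EV3 Pool.Agent.Helper41.PD Pool.Agent.Helper57.PD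

variable {P : Type} {G : Sh P}

/-- the crossings in their order -/
theorem exists_run [Fintype P] {N : ℕ} (h : Good N G) (hne : Nonempty P) :
    ∃ (C : Finset P) (τ : P → ℕ) (H : Cut G.nxt G.op C τ) (X : List P), C.card ≤ N ^ 3 ∧ Pool.Agent.Helper30.EV3.Ord H X ∧
      (∀ e, e ∈ X ∨ G.op e ∈ X) ∧ (∀ p, p ∈ X ↔ G.lf p = true) ∧ ∀ p ∈ X, H.lab p ≠ H.lab (G.op p) := by
  obtain ⟨C, τ, H, Bs, x0, h1, h2, h3, h4, h5⟩ := exists_data h hne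
  refine ⟨C, τ, H, Bs.flatMap fun b => b.2.map Prod.fst, h1.trans (le_of_eq (by ring)), (by unfold Pool.Agent.Helper30.EV3.Ord; exact h4.ord), fun e => ?_, h4.all, fun p hp => ?_⟩
  · rw [h4.all, h4.all]
    cases hl : G.lf e with
    | true => exact Or.inl rfl
    | false =>
      right
      rw [G.lf_op e (h.ho e), hl]
      rfl
  · obtain ⟨b, hb, hq⟩ := List.mem_flatMap.1 hp
    obtain ⟨q, hq1, rfl⟩ := List.mem_map.1 hq
    obtain ⟨g1, g2⟩ := h4.let_ b hb q hq1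
    intro hcon
    rw [← hcon] at g2
    obtain ⟨i1, j1⟩ := List.getElem?_eq_some_iff.1 g1
    obtain ⟨i2, j2⟩ := List.getElem?_eq_some_iff.1 g2
    have := (List.Nodup.getElem_inj_iff (h4.nd b hb)).1 (j1.trans j2.symm)
    omega

/-- **The second leg.** -/
theorem leg2 {N : ℕ} {c₀ w₀ : ℝ} (hc0 : 0 < c₀) (hc1 : c₀ ≤ 1 / 4) (hw0 : 0 < w₀) (hw : 10 ^ 6 * ((N : ℝ) + 1) ^ 10 * w₀ ≤ c₀ ^ 9) :
    Pool.Agent.Helper2.GD.Leg2 N w₀ c₀ := by
  classical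
  intro P _ G h r hr0 hr1 κ h1 h2 h3 c e₀ hz1 hz2 hrow
  obtain ⟨n, hn⟩ : ∃ n : ℝ, n = (N : ℝ) + 1 := ⟨_, rfl⟩
  rw [← hn] at hw
  have hn1 : 1 ≤ n := by
    rw [hn]
    have : (0 : ℝ) ≤ N := Nat.cast_nonneg N
    linarith
  have hw' : w₀ * 10 ^ 6 * n ^ 10 ≤ c₀ ^ 9 := by linarith
  have hc9 : c₀ ^ 9 ≤ c₀ := by
    have : c₀ ^ 9 ≤ c₀ ^ 1 := pow_le_pow_of_le_one hc0.le (by linarith) (by norm_num)
    linarith
  have hn10 : (1 : ℝ) ≤ n ^ 10 := one_le_pow₀ hn1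
  have hw1 : w₀ ≤ 1 / 4 := by nlinarith [mul_le_mul_of_nonneg_left hn10 hw0.le]
  obtain ⟨σ, s, s0, s1, sc, t0, t1, t2, t3⟩ := exists_pair hc0 hc1 hw0 hw1 h1 h2 h3
  obtain ⟨ι, hι⟩ := exists_kappa h.hc h.ho h.hp
  obtain ⟨C, τ, H, X, x1, x2, x3, x4, x5⟩ := exists_run h ⟨e₀⟩
  have hrange : ∀ f g, |ι f - ι g| ≤ (N : ℤ) := fun f g => kappa_le h.hc h.ho ι hι (sg G) (sg_apply G) h.hs f g
  have hc : Rows G (r : ℂ) κ c := by
    intro x hx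
    have := hrow x hx
    linear_combination this
  obtain ⟨k0, hk0⟩ : ∃ k0, k0 = ι (Rf G e₀) := ⟨_, rfl⟩
  obtain ⟨ε, hε⟩ : ∃ ε, ε = σ ^ 3 / (40 * n ^ 4) := ⟨_, rfl⟩
  have hn4 : 0 < n ^ 4 := by positivity
  have hε0 : 0 < ε := by rw [hε]; positivity
  have hσ3 : σ ^ 3 ≤ 1 := pow_le_one₀ s0.le s1.le
  have hn41 : (1 : ℝ) ≤ n ^ 4 := one_le_pow₀ hn1
  have hε1 : ε ≤ 1 / 2 := by
    rw [hε, div_le_div_iff₀ (by positivity) (by norm_num)]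
    nlinarith
  -- the distance of `s` and `σ`
  have hd : ‖s - σ‖ ≤ σ ^ 4 / (320 * n ^ 5) := by
    have e1 : ‖s - σ‖ ^ 2 ≤ (σ ^ 4 / (320 * n ^ 5)) ^ 2 := by
      refine t3.trans ?_
      rw [div_pow, div_le_div_iff₀ hc0 (by positivity)]
      have e2 : c₀ ^ 8 ≤ σ ^ 8 := pow_le_pow_left₀ hc0.le sc 8
      have e3 : 6 * w₀ * (320 * n ^ 5) ^ 2 = (w₀ * 10 ^ 6 * n ^ 10) * (614400 / 10 ^ 6) := by ring
      rw [e3, ← pow_mul]
      norm_num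
      have e4 : c₀ ^ 9 = c₀ ^ 8 * c₀ := by ring
      have e5 : c₀ ^ 8 * c₀ ≤ σ ^ 8 * c₀ := mul_le_mul_of_nonneg_right e2 hc0.le
      have e6 : 0 ≤ w₀ * 1000000 * n ^ 10 := by positivity
      nlinarith
    exact (pow_le_pow_iff_left₀ (norm_nonneg _) (by positivity) (by norm_num)).1 e1
  have hM : 4 * ((2 * N + 1 : ℕ) : ℝ) * (‖s - σ‖ / σ) ≤ ε := by
    have e1 : ((2 * N + 1 : ℕ) : ℝ) ≤ 2 * n := by
      rw [hn]
      push_cast
      linarith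
    have e2 : ‖s - σ‖ / σ ≤ σ ^ 3 / (320 * n ^ 5) := by
      rw [div_le_iff₀ s0]
      refine hd.trans (le_of_eq ?_)
      ring
    have e3 : 4 * ((2 * N + 1 : ℕ) : ℝ) * (‖s - σ‖ / σ) ≤ 4 * (2 * n) * (σ ^ 3 / (320 * n ^ 5)) :=
      mul_le_mul (by linarith) e2 (by positivity) (by positivity)
    refine e3.trans (le_of_eq ?_)
    rw [hε]
    field_simp
    ring
  have hκσ : ‖κ - ((σ / (1 + σ ^ 2) : ℝ) : ℂ)‖ ≤ ε := by
    refine t2.trans ?_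
    rw [hε, le_div_iff₀ (by positivity)]
    have e1 : c₀ ^ 3 ≤ σ ^ 3 := pow_le_pow_left₀ hc0.le sc 3
    have e2 : c₀ ^ 9 ≤ c₀ ^ 3 := pow_le_pow_of_le_one hc0.le (by linarith) (by norm_num)
    have e3 : n ^ 4 ≤ n ^ 10 := pow_le_pow_right₀ hn1 (by norm_num)
    have e4 : w₀ * n ^ 4 ≤ w₀ * n ^ 10 := mul_le_mul_of_nonneg_left e3 hw0.le
    have e5 : 0 ≤ w₀ * n ^ 4 := by positivity
    nlinarith
  have hj := jump_zero (H := H) h.ho hι hr0 hr1 t0 t1 s0 s1 hc (M := 2 * N + 1) hε0.le hε1 hM hκσ (Kc := Finset.Icc (k0 - N) (k0 + N))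
    (fun x _ => ?_) (K := N ^ 3) x1 ?_ x2 x3 (fun p hp => (x4 p).1 hp) x5
  · have key : ∀ x, G.lf x = true → c (Rf G x) = c (Lf G (G.nxt.symm x)) ∧
        c (Lf G x) + c (Rf G (G.op x)) = (s + s⁻¹) * c (Lf G (G.nxt.symm x)) := by
      intro x hx
      have e1 := hj x ((x4 x).2 hx)
      have e2 : c (Lf G x) + c (Rf G (G.op x)) = (s + s⁻¹) * c (Lf G (G.nxt.symm x)) := by
        unfold jump at e1
        linear_combination e1
      refine ⟨?_, e2⟩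
      rw [hc x hx, e2]
      linear_combination (1 - (r : ℂ)) * c (Lf G (G.nxt.symm x)) * t1
    refine Pool.Agent.Helper59.V8.zero_of_const h.ho h.hc c s t0 (fun x => ?_) (fun x => (key x.1 x.2).1) e₀ hz1 hz2
    rw [(key x.1 x.2).1, (key x.1 x.2).2]
    field_simp
    ring
  · have e1 := abs_le.1 (hrange (Rf G x) (Rf G e₀))
    rw [← hk0] at e1
    refine ⟨Finset.mem_Icc.2 ⟨by linarith [e1.1], by linarith [e1.2]⟩, fun k hk => ?_⟩
    rw [Finset.mem_Icc] at hk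
    have e2 : |ι (Rf G x) - k| ≤ 2 * N := by
      rw [abs_le]
      constructor <;> linarith [e1.1, e1.2, hk.1, hk.2]
    push_cast
    linarith
  · have e1 : (Finset.Icc (k0 - (N : ℤ)) (k0 + N)).card = 2 * N + 1 := by
      rw [Int.card_Icc]
      omega
    rw [e1]
    have e2 : ((2 * N + 1 : ℕ) : ℝ) ≤ 2 * n := by
      rw [hn]
      push_cast
      linarith
    have e3 : ((N ^ 3 : ℕ) : ℝ) + 1 ≤ n ^ 3 := by
      rw [hn]
      push_cast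
      have : (0 : ℝ) ≤ N := Nat.cast_nonneg N
      nlinarith [sq_nonneg (N : ℝ), mul_nonneg this this]
    have e4 : 2 * (((N ^ 3 : ℕ) : ℝ) + 1) * ε / σ ≤ 2 * n ^ 3 * (σ ^ 2 / (40 * n ^ 4)) := by
      rw [div_le_iff₀ s0]
      have e5 : 2 * n ^ 3 * (σ ^ 2 / (40 * n ^ 4)) * σ = 2 * n ^ 3 * ε := by
        rw [hε]
        ring
      rw [e5]
      exact mul_le_mul_of_nonneg_right (by linarith) hε0.le
    have e6 : ((2 * N + 1 : ℕ) : ℝ) * (2 * (((N ^ 3 : ℕ) : ℝ) + 1) * ε / σ) ≤ 2 * n * (2 * n ^ 3 * (σ ^ 2 / (40 * n ^ 4))) :=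
      mul_le_mul e2 e4 (by positivity) (by positivity)
    refine e6.trans_lt ?_
    have e7 : 2 * n * (2 * n ^ 3 * (σ ^ 2 / (40 * n ^ 4))) = σ ^ 2 / 10 := by
      field_simp
      ring
    rw [e7]
    have : 0 < σ ^ 2 := by positivity
    linarith

end Pool.Agent.Helper61.GD
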