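import Pool.Agent.Helper61.UNI.Weights

/-!
# The complex harmonic functions and their distance to the real ones
-/

set_option autoImplicit false

namespace Pool.Agent.Helper61.GD

open Pool.Agent.Helper61.UNI

/-- the complex harmonic function -/
noncomputable def hs (s : ℂ) (m : ℤ) : ℂ := s ^ m + s ^ (-m)

theorem hs_rec {s : ℂ} (h0 : s ≠ 0) (m : ℤ) : hs s (m + 1) + hs s (m - 1) = (s + s⁻¹) * hs s m := by
  unfold hs
  rw [zpow_add_one₀ h0, zpow_sub_one₀ h0, show -(m + 1) = -m - 1 by ring, show -(m - 1) = -m + 1 by ring, zpow_add_one₀ h0,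
    zpow_sub_one₀ h0]
  ring

theorem pow_sub_one_le {z : ℂ} {δ : ℝ} (hz : ‖z - 1‖ ≤ δ) (hδ : 0 ≤ δ) (n : ℕ) (hn : 2 * n * δ ≤ 1) : ‖z ^ n - 1‖ ≤ 2 * n * δ := by
  induction n with
  | zero => simp
  | succ n ih =>
    push_cast at hn ⊢
    have h1 := ih (by nlinarith)
    have hz1 : ‖z‖ ≤ 1 + δ := by
      have : z = (z - 1) + 1 := by ring
      rw [this]
      refine (norm_add_le _ _).trans ?_
      rw [norm_one]
      linarith
    have e : z ^ (n + 1) - 1 = (z ^ n - 1) * z + (z - 1) := by ring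
    rw [e]
    refine (norm_add_le _ _).trans ?_
    rw [norm_mul]
    have h2 : ‖z ^ n - 1‖ * ‖z‖ ≤ 2 * n * δ * (1 + δ) := mul_le_mul h1 hz1 (norm_nonneg _) (by positivity)
    have h3 : 2 * (n : ℝ) * δ * δ ≤ δ := by nlinarith
    nlinarith

theorem zpow_sub_one_le {z : ℂ} {δ : ℝ} (hz : ‖z - 1‖ ≤ δ) (hδ : 0 ≤ δ) {M : ℕ} (hM : 4 * M * δ ≤ 1) {m : ℤ} (hm : |m| ≤ M) :
    ‖z ^ m - 1‖ ≤ 4 * M * δ := by
  obtain ⟨n, hn⟩ : ∃ n : ℕ, (n : ℤ) = |m| := ⟨m.natAbs, by simp⟩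
  have hnM : n ≤ M := by
    have : (n : ℤ) ≤ M := by rw [hn]; exact hm
    exact_mod_cast this
  have hnM' : (n : ℝ) ≤ M := by exact_mod_cast hnM
  have hn2 : 4 * (n : ℝ) * δ ≤ 4 * M * δ := by nlinarith
  have h1 := pow_sub_one_le hz hδ n (by nlinarith [mul_nonneg (Nat.cast_nonneg n : (0 : ℝ) ≤ n) hδ])
  have hnn : 0 ≤ (n : ℝ) * δ := mul_nonneg (Nat.cast_nonneg n) hδ
  rcases le_total 0 m with h | h
  · have : m = n := by rw [hn, abs_of_nonneg h]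
    rw [this, zpow_natCast]
    linarith
  · have : m = -n := by rw [hn, abs_of_nonpos h]; ring
    rw [this, zpow_neg, zpow_natCast]
    have h3 : 1 / 2 ≤ ‖z ^ n‖ := by
      have h4 : (1 : ℝ) ≤ ‖z ^ n‖ + ‖z ^ n - 1‖ := by
        have e : (1 : ℂ) = z ^ n - (z ^ n - 1) := by ring
        calc (1 : ℝ) = ‖(1 : ℂ)‖ := by rw [norm_one]
          _ = ‖z ^ n - (z ^ n - 1)‖ := by rw [← e]
          _ ≤ _ := norm_sub_le _ _
      linarith
    have h5 : z ^ n ≠ 0 := by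
      intro h6
      rw [h6, norm_zero] at h3
      linarith
    have e : (z ^ n)⁻¹ - 1 = -((z ^ n - 1) * (z ^ n)⁻¹) := by
      field_simp
      ring
    rw [e, norm_neg, norm_mul, norm_inv, ← div_eq_mul_inv, div_le_iff₀ (by linarith)]
    nlinarith

/-- **The perturbation of the harmonic function.** -/
theorem hs_sub_le {σ : ℝ} (h0 : 0 < σ) {s : ℂ} {M : ℕ} (hM : 4 * M * (‖s - σ‖ / σ) ≤ 1) {m : ℤ} (hm : |m| ≤ M) :
    ‖hs s m - ((hh σ m : ℝ) : ℂ)‖ ≤ 4 * M * (‖s - σ‖ / σ) * hh σ m := by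
  obtain ⟨δ, hδ⟩ : ∃ δ, δ = ‖s - σ‖ / σ := ⟨_, rfl⟩
  have hδ0 : 0 ≤ δ := by rw [hδ]; positivity
  rw [← hδ] at hM ⊢
  have hσ : (σ : ℂ) ≠ 0 := by exact_mod_cast h0.ne'
  obtain ⟨z, hz⟩ : ∃ z, z = s / σ := ⟨_, rfl⟩
  have hs' : s = σ * z := by rw [hz]; field_simp
  have hz1 : ‖z - 1‖ ≤ δ := by
    have e : z - 1 = (s - σ) / σ := by rw [hz]; field_simp
    rw [e, norm_div, Complex.norm_real, Real.norm_of_nonneg h0.le, hδ]
  have h1 := zpow_sub_one_le hz1 hδ0 hM hm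
  have h2 := zpow_sub_one_le hz1 hδ0 hM (m := -m) (by rwa [abs_neg])
  have e : hs s m - ((hh σ m : ℝ) : ℂ) = ((σ ^ m : ℝ) : ℂ) * (z ^ m - 1) + ((σ ^ (-m) : ℝ) : ℂ) * (z ^ (-m) - 1) := by
    unfold hs hh
    rw [hs', mul_zpow, mul_zpow]
    push_cast
    ring
  rw [e]
  refine (norm_add_le _ _).trans ?_
  have p1 : 0 < σ ^ m := zpow_pos h0 _
  have p2 : 0 < σ ^ (-m) := zpow_pos h0 _
  rw [norm_mul, norm_mul, Complex.norm_real, Complex.norm_real, Real.norm_of_nonneg p1.le, Real.norm_of_nonneg p2.le]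
  unfold hh
  have h3 := mul_le_mul_of_nonneg_left h1 p1.le
  have h4 := mul_le_mul_of_nonneg_left h2 p2.le
  nlinarith

/-- the harmonic function is at least 2 -/
theorem two_le_hh {σ : ℝ} (h0 : 0 < σ) (m : ℤ) : 2 ≤ hh σ m := by
  unfold hh
  have p1 : 0 < σ ^ m := zpow_pos h0 _
  have e : σ ^ (-m) = (σ ^ m)⁻¹ := zpow_neg σ m
  rw [e]
  have h1 : σ ^ m * (σ ^ m)⁻¹ = 1 := mul_inv_cancel₀ p1.ne'
  have p2 : 0 < (σ ^ m)⁻¹ := inv_pos.2 p1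
  nlinarith [sq_nonneg (σ ^ m - (σ ^ m)⁻¹), sq_nonneg (σ ^ m - 1)]

theorem pp_le {σ : ℝ} (h0 : 0 < σ) (m : ℤ) : pp σ m ≤ 1 / 4 := by
  unfold pp
  have h1 := two_le_hh h0 (m - 1)
  have h2 := two_le_hh h0 m
  rw [inv_le_comm₀ (by positivity) (by norm_num)]
  norm_num
  nlinarith

theorem hh_pp_le {σ : ℝ} (h0 : 0 < σ) (m : ℤ) : hh σ m * (pp σ (m + 1) + pp σ m) ≤ 1 := by
  unfold pp
  rw [add_sub_cancel_right]
  have h1 := two_le_hh h0 (m - 1)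
  have h2 := two_le_hh h0 m
  have h3 := two_le_hh h0 (m + 1)
  have e : hh σ m * ((hh σ m * hh σ (m + 1))⁻¹ + (hh σ (m - 1) * hh σ m)⁻¹) = (hh σ (m + 1))⁻¹ + (hh σ (m - 1))⁻¹ := by
    have n1 := (hh_pos h0 m).ne'
    have n2 := (hh_pos h0 (m - 1)).ne'
    have n3 := (hh_pos h0 (m + 1)).ne'
    field_simp
  rw [e]
  have h4 : (hh σ (m + 1))⁻¹ ≤ 1 / 2 := by
    rw [inv_le_comm₀ (by linarith) (by norm_num)]
    norm_num
    exact h3
  have h5 : (hh σ (m - 1))⁻¹ ≤ 1 / 2 := by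
    rw [inv_le_comm₀ (by linarith) (by norm_num)]
    norm_num
    exact h1
  linarith

theorem hh_pp_pp_le {σ : ℝ} (h0 : 0 < σ) (m : ℤ) : hh σ m * (pp σ (m + 1) * pp σ m) ≤ 1 / 8 := by
  have h1 := hh_pp_le h0 m
  have p1 := pp_pos h0 m
  have p2 := pp_pos h0 (m + 1)
  have p3 := hh_pos h0 m
  have q1 := pp_le h0 m
  have q2 := pp_le h0 (m + 1)
  have h2 : hh σ m * (pp σ (m + 1) * pp σ m) ≤ hh σ m * ((pp σ (m + 1) + pp σ m) / 8) := by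
    apply mul_le_mul_of_nonneg_left _ p3.le
    nlinarith
  linarith

theorem hh_pp_pp_zero {σ : ℝ} (h0 : 0 < σ) (h1 : σ < 1) : σ ^ 2 / 8 ≤ hh σ 0 * (pp σ 1 * pp σ 0) := by
  have e1 : hh σ (-1) = (1 + σ ^ 2) / σ := by
    unfold hh
    rw [neg_neg, zpow_neg, zpow_one]
    field_simp
  have e2 : pp σ 0 = σ / (2 * (1 + σ ^ 2)) := by
    unfold pp
    rw [zero_sub, e1, hh_zero]
    field_simp
  have e3 : pp σ 1 = σ / (2 * (1 + σ ^ 2)) := by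
    unfold pp
    rw [sub_self, hh_zero, ← hh_neg (σ := σ) 1, e1]
    field_simp
  rw [e2, e3, hh_zero, div_mul_div_comm, ← mul_div_assoc, div_le_div_iff₀ (by norm_num) (by positivity)]
  have h2 : σ ^ 2 ≤ 1 := by nlinarith
  have h6 : (1 + σ ^ 2) * (1 + σ ^ 2) ≤ 4 := by nlinarith [sq_nonneg σ]
  have h7 : 0 < σ ^ 2 := by positivity
  nlinarith

end Pool.Agent.Helper61.GD
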