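import Pool.Agent.Helper61.GD.Step
import Pool.Agent.Helper61.GD.Pert
import Pool.Agent.Helper2.PD.Faces
import Pool.Agent.Helper16.PD.Dehn

/-!
# One crossing of a plane diagram: the Wronskian with a harmonic function of the index

`c` are face values with `N = ζ S + (1 - ζ) κ (W + E)` at every crossing, `κ (s + s⁻¹) = 1`.
-/

set_option autoImplicit false

namespace Pool.Agent.Helper61.GD

open Finset Pool.Agent.Helper61.UNI Pool.Agent.Helper85.Exp Pool.Agent.Helper2.PD Pool.Agent.Helper16.PD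

variable {P : Type} {G : Sh P}

/-- the rows, with two parameters -/
def Rows (G : Sh P) (ζ κ : ℂ) (c : Face G → ℂ) : Prop :=
  ∀ x : P, G.lf x = true → c (Rf G x) = ζ * c (Lf G (G.nxt.symm x)) + (1 - ζ) * κ * (c (Lf G x) + c (Rf G (G.op x)))

/-- the index -/
def Idx (G : Sh P) (ι : Face G → ℤ) : Prop := ∀ i, ι (Lf G i) = ι (Rf G i) + 1

/-- the jump at a crossing -/
noncomputable def jump (s : ℂ) (c : Face G → ℂ) (x : P) : ℂ := c (Lf G x) + c (Rf G (G.op x)) - (s + s⁻¹) * c (Lf G (G.nxt.symm x))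

/-- the edge values -/
noncomputable def gv (ι : Face G → ℤ) (s : ℂ) (k : ℤ) (c : Face G → ℂ) (e : P) : ℂ :=
  hs s (ι (Lf G e) - k) * c (Rf G e) - hs s (ι (Rf G e) - k) * c (Lf G e)

/-- the weights -/
noncomputable def wt (ι : Face G → ℤ) (σ : ℝ) (k : ℤ) (e : P) : ℝ := pp σ (ι (Lf G e) - k)

/-- the relations at a crossing -/
theorem gv_rel (ho : ∀ i, G.op i ≠ i) {ι : Face G → ℤ} (hι : Idx G ι) {ζ κ s : ℂ} (hs0 : s ≠ 0) (hκ : κ * (s + s⁻¹) = 1)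
    {c : Face G → ℂ} (hc : Rows G ζ κ c) {x : P} (hx : G.lf x = true) (k : ℤ) {m : ℤ} (hm : m = ι (Rf G x) - k) :
    gv ι s k c (G.nxt.symm x) - gv ι s k c (G.nxt.symm (G.op x)) = hs s m * jump s c x ∧
    gv ι s k c x - gv ι s k c (G.nxt.symm (G.op x)) = (1 - ζ) * κ * hs s (m + 1) * jump s c x ∧
    gv ι s k c (G.op x) - gv ι s k c (G.nxt.symm x) = -((1 - ζ) * κ * hs s (m - 1) * jump s c x) := by
  have cS := corner_S hx
  have cN := corner_N hx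
  have cW := corner_W hx (ho x)
  have cE := corner_E hx (ho x)
  have hr := hc x hx
  have i1 : ι (Lf G x) - k = m + 1 := by rw [hι x, hm]; ring
  have i2 : ι (Rf G x) - k = m := hm.symm
  have i3 : ι (Lf G (G.op x)) - k = m := by rw [← cN]; exact i2
  have i4 : ι (Rf G (G.op x)) - k = m - 1 := by
    have := hι (G.op x)
    omega
  have i5 : ι (Lf G (G.nxt.symm (G.op x))) - k = m + 1 := by rw [← cW]; exact i1
  have i6 : ι (Rf G (G.nxt.symm (G.op x))) - k = m := by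
    have := hι (G.nxt.symm (G.op x))
    omega
  have i7 : ι (Lf G (G.nxt.symm x)) - k = m := by rw [cS]; exact i6
  have i8 : ι (Rf G (G.nxt.symm x)) - k = m - 1 := by rw [cE]; exact i4
  have hrec := hs_rec hs0 m
  have hNS : c (Rf G x) - c (Lf G (G.nxt.symm x)) = (1 - ζ) * κ * jump s c x := by
    unfold jump
    rw [hr]
    linear_combination (1 - ζ) * c (Lf G (G.nxt.symm x)) * hκ
  unfold gv
  rw [i1, i2, i3, i4, i5, i6, i7, i8, ← cS, ← cN, ← cW, cE]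
  refine ⟨?_, ?_, ?_⟩
  · unfold jump
    linear_combination (-(c (Lf G (G.nxt.symm x)))) * hrec
  · linear_combination hs s (m + 1) * hNS
  · linear_combination (-(hs s (m - 1))) * hNS

/-- the mean difference of the edge values at the current edges -/
noncomputable def Pl {Λ : Type*} [Fintype Λ] (ι : Face G → ℤ) (σ : ℝ) (s : ℂ) (c : Face G → ℂ) (k : ℤ) (cur : Λ → P) : ℝ :=
  Ph univ (fun a => wt ι σ k (cur a)) (fun a => gv ι s k c (cur a))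

/-- **One crossing, one centre.** -/
theorem kstep (ho : ∀ i, G.op i ≠ i) {ι : Face G → ℤ} (hι : Idx G ι) {ζ : ℝ} (hζ0 : 0 ≤ ζ) (hζ1 : ζ ≤ 1) {κ s : ℂ} (hs0 : s ≠ 0)
    (hκ : κ * (s + s⁻¹) = 1) {σ : ℝ} (h0 : 0 < σ) (h1 : σ < 1) {c : Face G → ℂ} (hc : Rows G (ζ : ℂ) κ c) {M : ℕ} {ε : ℝ} (hε : 0 ≤ ε)
    (hε1 : ε ≤ 1 / 2) (hM : 4 * M * (‖s - σ‖ / σ) ≤ ε) (hκσ : ‖κ - ((σ / (1 + σ ^ 2) : ℝ) : ℂ)‖ ≤ ε) {x : P} (hx : G.lf x = true) (k : ℤ)
    (hk : |ι (Rf G x) - k| + 1 ≤ M) {Λ : Type*} [Fintype Λ] [DecidableEq Λ] {cur cur' : Λ → P} {l r : Λ} (hlr : l ≠ r)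
    (c1 : cur l = G.nxt.symm (G.op x)) (c2 : cur r = G.nxt.symm x) (c3 : cur' l = x) (c4 : cur' r = G.op x)
    (c5 : ∀ a, a ≠ l → a ≠ r → cur' a = cur a) {K : ℕ} (hK : Fintype.card Λ ≤ K) :
    Pl ι σ s c k cur' ≤ Pl ι σ s c k cur -
        (1 - ζ) * ‖jump s c x‖ * (hh σ (ι (Rf G x) - k) * (pp σ (ι (Rf G x) - k + 1) * pp σ (ι (Rf G x) - k)) - 2 * (K + 1) * ε / σ) := by
  obtain ⟨m, hm⟩ : ∃ m, m = ι (Rf G x) - k := ⟨_, rfl⟩
  rw [← hm] at hk ⊢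
  obtain ⟨g1, g2, g3⟩ := gv_rel ho hι hs0 hκ hc hx k hm
  obtain ⟨j, hj⟩ : ∃ j, j = jump s c x := ⟨_, rfl⟩
  rw [← hj] at g1 g2 g3 ⊢
  have hp := hh_pos h0 m
  have hp1 := hh_pos h0 (m + 1)
  have hp2 := hh_pos h0 (m - 1)
  have hm0 : |m| ≤ M := by omega
  have hm1 : |m + 1| ≤ M := by
    have := abs_add_le m 1
    rw [abs_one] at this
    omega
  have hm2 : |m - 1| ≤ M := by
    have := abs_sub m 1
    rw [abs_one] at this
    omega
  have hM1 : 4 * M * (‖s - σ‖ / σ) ≤ 1 := by linarith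
  have b0 := (hs_sub_le h0 hM1 hm0).trans (mul_le_mul_of_nonneg_right hM hp.le)
  have b1 := (hs_sub_le h0 hM1 hm1).trans (mul_le_mul_of_nonneg_right hM hp1.le)
  have b2 := (hs_sub_le h0 hM1 hm2).trans (mul_le_mul_of_nonneg_right hM hp2.le)
  obtain ⟨κr, hκr⟩ : ∃ κr : ℝ, κr = σ / (1 + σ ^ 2) := ⟨_, rfl⟩
  rw [← hκr] at hκσ
  have hκr0 : 0 < κr := by rw [hκr]; positivity
  have hκr1 : κr ≤ 1 / 2 := by
    rw [hκr, div_le_div_iff₀ (by positivity) (by norm_num)]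
    nlinarith [sq_nonneg (σ - 1)]
  have hκrh : κr * (hh σ (m + 1) + hh σ (m - 1)) = hh σ m := by
    have h := harm h0 m
    rw [hκr]
    field_simp
    linarith
  -- the real coefficients
  obtain ⟨α, hα⟩ : ∃ α, α = (1 - ζ) * κr * hh σ (m + 1) / hh σ m := ⟨_, rfl⟩
  obtain ⟨β, hβ⟩ : ∃ β, β = (1 - ζ) * κr * hh σ (m - 1) / hh σ m := ⟨_, rfl⟩
  have hz : 0 ≤ 1 - ζ := by linarith
  have hα0 : 0 ≤ α := by rw [hα]; positivity
  have hβ0 : 0 ≤ β := by rw [hβ]; positivity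
  have hab : α + β = 1 - ζ := by
    rw [hα, hβ, ← add_div, ← mul_add, mul_assoc, hκrh, mul_div_cancel_right₀ _ hp.ne']
  have hα1 : α ≤ 1 := by linarith
  have hβ1 : β ≤ 1 := by linarith
  have w1 : wt ι σ k x = pp σ (m + 1) := by
    unfold wt
    rw [hι x, hm]
    congr 1
    ring
  have w2 : wt ι σ k (G.nxt.symm (G.op x)) = pp σ (m + 1) := by
    rw [← w1]
    unfold wt
    rw [← corner_W hx (ho x)]
  have w3 : wt ι σ k (G.op x) = pp σ m := by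
    unfold wt
    rw [← corner_N hx, hm]
  have w4 : wt ι σ k (G.nxt.symm x) = pp σ m := by
    unfold wt
    rw [corner_S hx]
    have h5 := hι (G.nxt.symm (G.op x))
    rw [← corner_W hx (ho x), hι x] at h5
    have h6 : ι (Rf G (G.nxt.symm (G.op x))) = ι (Rf G x) := by omega
    rw [h6, hm]
  have hst : wt ι σ k (G.nxt.symm (G.op x)) * α = wt ι σ k (G.nxt.symm x) * β := by
    rw [w2, w4, hα, hβ]
    have h := pp_rev h0 m
    have h7 : pp σ (m + 1) * hh σ (m + 1) = pp σ m * hh σ (m - 1) := by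
      have h8 : pp σ m * hh σ (m - 1) * (σ / hh σ m) = pp σ (m + 1) * hh σ (m + 1) * (σ / hh σ m) := by
        have e1 : pp σ m * hh σ (m - 1) * (σ / hh σ m) = pp σ m * (σ * hh σ (m - 1) / hh σ m) := by ring
        have e2 : pp σ (m + 1) * hh σ (m + 1) * (σ / hh σ m) = pp σ (m + 1) * (σ * hh σ (m + 1) / hh σ m) := by ring
        rw [e1, e2]
        exact h
      exact (mul_right_cancel₀ (by positivity) h8).symm
    rw [mul_div_assoc', mul_div_assoc']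
    congr 1
    linear_combination ((1 - ζ) * κr) * h7
  -- the errors
  obtain ⟨gl, hgl⟩ : ∃ g, g = gv ι s k c (G.nxt.symm (G.op x)) := ⟨_, rfl⟩
  obtain ⟨gr, hgr⟩ : ∃ g, g = gv ι s k c (G.nxt.symm x) := ⟨_, rfl⟩
  rw [← hgl, ← hgr] at g1
  rw [← hgl] at g2
  rw [← hgr] at g3
  obtain ⟨u, hu⟩ : ∃ u : ℂ, u = ((1 - ζ) * κ * hs s (m + 1) - α * hs s m) * j := ⟨_, rfl⟩
  obtain ⟨w, hw⟩ : ∃ w : ℂ, w = -(((1 - ζ) * κ * hs s (m - 1) - β * hs s m) * j) := ⟨_, rfl⟩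
  have hl : gv ι s k c x = ((1 - α : ℝ) : ℂ) * gl + ((α : ℝ) : ℂ) * gr + u := by
    rw [hu]
    push_cast
    linear_combination g2 - α * g1
  have hr' : gv ι s k c (G.op x) = ((β : ℝ) : ℂ) * gl + ((1 - β : ℝ) : ℂ) * gr + w := by
    rw [hw]
    push_cast
    linear_combination g3 + β * g1
  have hκn : ‖κ‖ ≤ 1 := by
    have : κ = (κ - (κr : ℝ)) + (κr : ℝ) := by ring
    rw [this]
    refine (norm_add_le _ _).trans ?_
    rw [Complex.norm_real, Real.norm_of_nonneg hκr0.le]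
    linarith
  have err : ∀ (m' : ℤ) (a : ℝ), hh σ m' ≤ hh σ m / σ → ‖hs s m' - ((hh σ m' : ℝ) : ℂ)‖ ≤ ε * hh σ m' → 0 < hh σ m' →
      a = (1 - ζ) * κr * hh σ m' / hh σ m →
      ‖((1 - (ζ : ℂ)) * κ * hs s m' - a * hs s m) * j‖ ≤ (1 - ζ) * (5 / 2 * ε / σ) * (hh σ m * ‖j‖) := by
    intro m' a hle hb hpos ha
    rw [norm_mul]
    have e1 : (1 - (ζ : ℂ)) * κ * hs s m' - a * hs s m = (1 - (ζ : ℂ)) * ((κ - (κr : ℝ)) * ((hh σ m' : ℝ) : ℂ) + κ * (hs s m' - ((hh σ m' : ℝ) : ℂ)))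
        - a * (hs s m - ((hh σ m : ℝ) : ℂ)) := by
      have : (a : ℂ) * ((hh σ m : ℝ) : ℂ) = (1 - (ζ : ℂ)) * (κr : ℝ) * ((hh σ m' : ℝ) : ℂ) := by
        have h9 : a * hh σ m = (1 - ζ) * κr * hh σ m' := by rw [ha, div_mul_cancel₀ _ hp.ne']
        have := congrArg (fun r : ℝ => (r : ℂ)) h9
        push_cast at this
        exact this
      linear_combination -this
    have hzn : ‖(1 - (ζ : ℂ))‖ = 1 - ζ := by
      have : (1 - (ζ : ℂ)) = ((1 - ζ : ℝ) : ℂ) := by push_cast; ring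
      rw [this, Complex.norm_real, Real.norm_of_nonneg hz]
    have ha0 : 0 ≤ a := by rw [ha]; positivity
    have e2 : ‖(κ - (κr : ℝ)) * ((hh σ m' : ℝ) : ℂ)‖ ≤ ε * hh σ m' := by
      rw [norm_mul, Complex.norm_real, Real.norm_of_nonneg hpos.le]
      exact mul_le_mul_of_nonneg_right hκσ hpos.le
    have e3 : ‖κ * (hs s m' - ((hh σ m' : ℝ) : ℂ))‖ ≤ ε * hh σ m' := by
      rw [norm_mul]
      calc ‖κ‖ * _ ≤ 1 * (ε * hh σ m') := mul_le_mul hκn hb (norm_nonneg _) (by norm_num)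
        _ = _ := one_mul _
    have e4 : ‖(a : ℂ) * (hs s m - ((hh σ m : ℝ) : ℂ))‖ ≤ (1 - ζ) * (1 / 2) * (ε * hh σ m') := by
      rw [norm_mul, Complex.norm_real, Real.norm_of_nonneg ha0]
      have := mul_le_mul_of_nonneg_left b0 ha0
      refine this.trans ?_
      have h9 : a * hh σ m = (1 - ζ) * κr * hh σ m' := by rw [ha, div_mul_cancel₀ _ hp.ne']
      calc a * (ε * hh σ m) = ε * (a * hh σ m) := by ring
        _ = ε * ((1 - ζ) * κr * hh σ m') := by rw [h9]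
        _ ≤ ε * ((1 - ζ) * (1 / 2) * hh σ m') := by gcongr
        _ = _ := by ring
    have e5 : ‖(1 - (ζ : ℂ)) * κ * hs s m' - a * hs s m‖ ≤ (1 - ζ) * (5 / 2 * ε) * hh σ m' := by
      rw [e1]
      refine (norm_sub_le _ _).trans ?_
      rw [norm_mul, hzn]
      have h10 := mul_le_mul_of_nonneg_left ((norm_add_le _ _).trans (add_le_add e2 e3)) hz
      nlinarith
    calc _ ≤ (1 - ζ) * (5 / 2 * ε) * hh σ m' * ‖j‖ := mul_le_mul_of_nonneg_right e5 (norm_nonneg _)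
      _ ≤ (1 - ζ) * (5 / 2 * ε) * (hh σ m / σ) * ‖j‖ := by gcongr
      _ = _ := by ring
  have hm1' : hh σ (m + 1) ≤ hh σ m / σ := by rw [le_div_iff₀ h0, mul_comm]; exact succ_le h0 h1 m
  have hm2' : hh σ (m - 1) ≤ hh σ m / σ := by rw [le_div_iff₀ h0, mul_comm]; exact pred_le h0 h1 m
  obtain ⟨e, he⟩ : ∃ e, e = (1 - ζ) * (5 / 2 * ε / σ) * (hh σ m * ‖j‖) := ⟨_, rfl⟩
  have hun : ‖u‖ ≤ e := by rw [hu, he]; exact err (m + 1) α hm1' b1 hp1 hα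
  have hwn : ‖w‖ ≤ e := by rw [hw, norm_neg, he]; exact err (m - 1) β hm2' b2 hp2 hβ
  have hW : (fun a => wt ι σ k (cur' a)) = fun a => wt ι σ k (cur a) := by
    funext a
    by_cases ha : a = l
    · rw [ha, c1, c3, w1, w2]
    by_cases hb : a = r
    · rw [hb, c2, c4, w3, w4]
    rw [c5 a ha hb]
  have hstep := gstep (E := Λ) hlr (p := fun a => wt ι σ k (cur a)) (fun a => (pp_pos h0 _).le) (t := ζ) hα0 hα1 hβ0 hβ1
    (by rw [show (1 : ℝ) - α - β = ζ by linarith, abs_of_nonneg hζ0]) (by rw [c1, c2]; exact hst) (G := fun a => gv ι s k c (cur a))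
    (G' := fun a => gv ι s k c (cur' a)) (fun a ha hb => by rw [c5 a ha hb]) hun hwn
    (by simp only [c1, c2, c3, ← hgl, ← hgr]; exact hl) (by simp only [c1, c2, c4, ← hgl, ← hgr]; exact hr')
  unfold Pl
  rw [hW]
  refine hstep.trans ?_
  simp only [c1, c2]
  rw [w2, w4, ← hgl, ← hgr, g1]
  -- collecting
  have he0 : 0 ≤ e := (norm_nonneg _).trans hun
  have hmass : ∑ b, wt ι σ k (cur b) ≤ K / 4 := by
    calc ∑ b, wt ι σ k (cur b) ≤ ∑ b : Λ, (1 / 4 : ℝ) := sum_le_sum fun b _ => pp_le h0 _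
      _ = Fintype.card Λ * (1 / 4) := by rw [sum_const, nsmul_eq_mul, card_univ]
      _ ≤ K / 4 := by
        have : (Fintype.card Λ : ℝ) ≤ K := by exact_mod_cast hK
        linarith
  have q0 := pp_pos h0 m
  have q1 := pp_pos h0 (m + 1)
  have hD : (1 - ε) * (hh σ m * ‖j‖) ≤ ‖hs s m * j‖ := by
    rw [norm_mul]
    have h11 : hh σ m ≤ ‖hs s m‖ + ε * hh σ m := by
      have e7 : ((hh σ m : ℝ) : ℂ) = hs s m - (hs s m - ((hh σ m : ℝ) : ℂ)) := by ring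
      calc hh σ m = ‖((hh σ m : ℝ) : ℂ)‖ := by rw [Complex.norm_real, Real.norm_of_nonneg hp.le]
        _ = ‖hs s m - (hs s m - ((hh σ m : ℝ) : ℂ))‖ := by rw [← e7]
        _ ≤ ‖hs s m‖ + ‖hs s m - ((hh σ m : ℝ) : ℂ)‖ := norm_sub_le _ _
        _ ≤ _ := by linarith
    nlinarith [norm_nonneg j]
  obtain ⟨A, hA⟩ : ∃ A, A = hh σ m * (pp σ (m + 1) * pp σ m) := ⟨_, rfl⟩
  have hA0 : 0 ≤ A := by rw [hA]; positivity
  have t1 : (1 - ζ) * ‖j‖ * A ≤ 2 * (1 - ζ) * (pp σ (m + 1) * pp σ m) * ‖hs s m * j‖ := by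
    have h12 : 2 * (1 - ζ) * (pp σ (m + 1) * pp σ m) * ((1 - ε) * (hh σ m * ‖j‖)) ≤ 2 * (1 - ζ) * (pp σ (m + 1) * pp σ m) * ‖hs s m * j‖ :=
      mul_le_mul_of_nonneg_left hD (by positivity)
    refine le_trans (le_of_eq_of_le (?_ : _ = (1 - ζ) * ‖j‖ * A * 1) ?_) h12
    · ring
    · have h13 : 2 * (1 - ζ) * (pp σ (m + 1) * pp σ m) * ((1 - ε) * (hh σ m * ‖j‖)) = (1 - ζ) * ‖j‖ * A * (2 * (1 - ε)) := by
        rw [hA]
        ring
      rw [h13]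
      apply mul_le_mul_of_nonneg_left _ (by positivity)
      linarith
  have t2 : 2 * e * ((pp σ (m + 1) + pp σ m) * ∑ b, wt ι σ k (cur b)) + 4 * e * (pp σ (m + 1) * pp σ m) ≤
      (1 - ζ) * ‖j‖ * (2 * (K + 1) * ε / σ) := by
    have h14 : 2 * e * ((pp σ (m + 1) + pp σ m) * ∑ b, wt ι σ k (cur b)) ≤ 2 * e * ((pp σ (m + 1) + pp σ m) * (K / 4)) := by
      apply mul_le_mul_of_nonneg_left _ (by positivity)
      exact mul_le_mul_of_nonneg_left hmass (by positivity)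
    have h15 : 2 * e * ((pp σ (m + 1) + pp σ m) * (K / 4)) = (1 - ζ) * (5 / 4 * ε / σ) * ‖j‖ * (K * (hh σ m * (pp σ (m + 1) + pp σ m))) := by
      rw [he]
      ring
    have h16 : 4 * e * (pp σ (m + 1) * pp σ m) = (1 - ζ) * (10 * ε / σ) * ‖j‖ * A := by
      rw [he, hA]
      ring
    have h17 : (K : ℝ) * (hh σ m * (pp σ (m + 1) + pp σ m)) ≤ K * 1 := mul_le_mul_of_nonneg_left (hh_pp_le h0 m) (Nat.cast_nonneg K)
    have h18 : A ≤ 1 / 8 := by rw [hA]; exact hh_pp_pp_le h0 m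
    have h19 := mul_le_mul_of_nonneg_left h17 (by positivity : 0 ≤ (1 - ζ) * (5 / 4 * ε / σ) * ‖j‖)
    have h20 := mul_le_mul_of_nonneg_left h18 (by positivity : 0 ≤ (1 - ζ) * (10 * ε / σ) * ‖j‖)
    have h21 : (1 - ζ) * (5 / 4 * ε / σ) * ‖j‖ * (K * 1) + (1 - ζ) * (10 * ε / σ) * ‖j‖ * (1 / 8) ≤ (1 - ζ) * ‖j‖ * (2 * (K + 1) * ε / σ) := by
      have h22 : (1 - ζ) * ‖j‖ * (2 * (K + 1) * ε / σ) - ((1 - ζ) * (5 / 4 * ε / σ) * ‖j‖ * (K * 1) + (1 - ζ) * (10 * ε / σ) * ‖j‖ * (1 / 8)) =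
          (1 - ζ) * ‖j‖ * (ε / σ) * (3 / 4 * K + 3 / 4) := by ring
      have h23 : 0 ≤ (1 - ζ) * ‖j‖ * (ε / σ) * (3 / 4 * K + 3 / 4) := by positivity
      linarith
    linarith
  have t3 : (1 - ζ) * ‖j‖ * (A - 2 * (K + 1) * ε / σ) = (1 - ζ) * ‖j‖ * A - (1 - ζ) * ‖j‖ * (2 * (K + 1) * ε / σ) := by ring
  rw [← hA, t3]
  have t4 : 2 * (1 - ζ) * (pp σ (m + 1) * pp σ m) * ‖hs s m * j‖ = 2 * (1 - ζ) * (pp σ (m + 1) * pp σ m) * ‖hs s m * j‖ := rfl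
  linarith

end Pool.Agent.Helper61.GD
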