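import Pool.Agent.Helper61.GD.Cross
import Pool.Agent.Helper30.EV3.Strand

/-!
# All crossings of a cut plane diagram: the jumps vanish
-/

set_option autoImplicit false

namespace Pool.Agent.Helper61.GD

open Finset Pool.Agent.Helper61.UNI Pool.Agent.Helper85.Exp Pool.Agent.Helper2.PD Pool.Agent.Helper16.PD
open Pool.Agent.Helper30.EV3 Pool.Agent.Helper41.PD

variable {P : Type} {G : Sh P} {C : Finset P} {τ : P → ℕ} {H : Cut G.nxt G.op C τ}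

/-- the sum over the centres -/
noncomputable def Ps {Λ : Type*} [Fintype Λ] (Kc : Finset ℤ) (ι : Face G → ℤ) (σ : ℝ) (s : ℂ) (c : Face G → ℂ) (cur : Λ → P) : ℝ :=
  ∑ k ∈ Kc, Pl ι σ s c k cur

theorem Pl_perm {Λ : Type*} [Fintype Λ] {ι : Face G → ℤ} {σ : ℝ} {s : ℂ} {c : Face G → ℂ} {k : ℤ} (e : Equiv.Perm Λ) (cur : Λ → P) :
    Pl ι σ s c k (fun l => cur (e l)) = Pl ι σ s c k cur := by
  unfold Pl Ph
  have h := Equiv.sum_comp e (fun a => ∑ b, wt ι σ k (cur a) * wt ι σ k (cur b) * ‖gv ι s k c (cur a) - gv ι s k c (cur b)‖)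
  refine Eq.trans ?_ h
  exact sum_congr rfl fun a _ =>
    Equiv.sum_comp e (fun b => wt ι σ k (cur (e a)) * wt ι σ k (cur b) * ‖gv ι s k c (cur (e a)) - gv ι s k c (cur b)‖)

open Classical in
/-- One crossing, all centres. -/
theorem pstep (ho : ∀ i, G.op i ≠ i) {ι : Face G → ℤ} (hι : Idx G ι) {ζ : ℝ} (hζ0 : 0 ≤ ζ) (hζ1 : ζ ≤ 1) {κ s : ℂ} (hs0 : s ≠ 0)
    (hκ : κ * (s + s⁻¹) = 1) {σ : ℝ} (h0 : 0 < σ) (h1 : σ < 1) {c : Face G → ℂ} (hc : Rows G (ζ : ℂ) κ c) {M : ℕ} {ε : ℝ} (hε : 0 ≤ ε)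
    (hε1 : ε ≤ 1 / 2) (hM : 4 * M * (‖s - σ‖ / σ) ≤ ε) (hκσ : ‖κ - ((σ / (1 + σ ^ 2) : ℝ) : ℂ)‖ ≤ ε) {x : P} (hx : G.lf x = true)
    {Kc : Finset ℤ} (hk : ∀ k ∈ Kc, |ι (Rf G x) - k| + 1 ≤ M) (hkx : ι (Rf G x) ∈ Kc)
    {Λ : Type*} [Fintype Λ] {cur cur' : Λ → P} {l r : Λ} (hlr : l ≠ r)
    (c1 : cur l = G.nxt.symm (G.op x)) (c2 : cur r = G.nxt.symm x) (c3 : cur' l = x) (c4 : cur' r = G.op x)
    (c5 : ∀ a, a ≠ l → a ≠ r → cur' a = cur a) {K : ℕ} (hK : Fintype.card Λ ≤ K) :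
    Ps Kc ι σ s c cur' ≤ Ps Kc ι σ s c cur - (1 - ζ) * (σ ^ 2 / 8 - Kc.card * (2 * (K + 1) * ε / σ)) * ‖jump s c x‖ := by
  have h2 : ∀ k ∈ Kc, Pl ι σ s c k cur' ≤ Pl ι σ s c k cur -
      (1 - ζ) * ‖jump s c x‖ * (hh σ (ι (Rf G x) - k) * (pp σ (ι (Rf G x) - k + 1) * pp σ (ι (Rf G x) - k)) - 2 * (K + 1) * ε / σ) :=
    fun k hkk => kstep ho hι hζ0 hζ1 hs0 hκ h0 h1 hc hε hε1 hM hκσ hx k (hk k hkk) hlr c1 c2 c3 c4 c5 hK
  have h3 := sum_le_sum h2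
  rw [sum_sub_distrib, ← mul_sum, sum_sub_distrib, sum_const, nsmul_eq_mul] at h3
  have h4 : σ ^ 2 / 8 ≤ ∑ k ∈ Kc, hh σ (ι (Rf G x) - k) * (pp σ (ι (Rf G x) - k + 1) * pp σ (ι (Rf G x) - k)) := by
    have h5 := single_le_sum (f := fun k => hh σ (ι (Rf G x) - k) * (pp σ (ι (Rf G x) - k + 1) * pp σ (ι (Rf G x) - k)))
      (fun k _ => by
        have q1 := hh_pos h0 (ι (Rf G x) - k)
        have q2 := pp_pos h0 (ι (Rf G x) - k + 1)
        have q3 := pp_pos h0 (ι (Rf G x) - k)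
        positivity) hkx
    refine le_trans ?_ h5
    simp only [sub_self, zero_add]
    exact hh_pp_pp_zero h0 h1
  have h6 : 0 ≤ (1 - ζ) * ‖jump s c x‖ := mul_nonneg (by linarith) (norm_nonneg _)
  have h7 := mul_le_mul_of_nonneg_left (sub_le_sub_right h4 (Kc.card * (2 * (K + 1) * ε / σ))) h6
  unfold Ps
  nlinarith

open Classical in
/-- **All jumps vanish.** -/
theorem jump_zero (ho : ∀ i, G.op i ≠ i) {ι : Face G → ℤ} (hι : Idx G ι) {ζ : ℝ} (hζ0 : 0 ≤ ζ) (hζ1 : ζ < 1) {κ s : ℂ} (hs0 : s ≠ 0)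
    (hκ : κ * (s + s⁻¹) = 1) {σ : ℝ} (h0 : 0 < σ) (h1 : σ < 1) {c : Face G → ℂ} (hc : Rows G (ζ : ℂ) κ c) {M : ℕ} {ε : ℝ} (hε : 0 ≤ ε)
    (hε1 : ε ≤ 1 / 2) (hM : 4 * M * (‖s - σ‖ / σ) ≤ ε) (hκσ : ‖κ - ((σ / (1 + σ ^ 2) : ℝ) : ℂ)‖ ≤ ε)
    {Kc : Finset ℤ} (hk : ∀ x, G.lf x = true → ι (Rf G x) ∈ Kc ∧ ∀ k ∈ Kc, |ι (Rf G x) - k| + 1 ≤ M)
    {K : ℕ} (hK : C.card ≤ K) (hδ : Kc.card * (2 * (K + 1) * ε / σ) < σ ^ 2 / 8)
    {X : List P} (hord : Ord H X) (hall : ∀ e, e ∈ X ∨ G.op e ∈ X) (hlf : ∀ p ∈ X, G.lf p = true)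
    (hne : ∀ p ∈ X, H.lab p ≠ H.lab (G.op p)) : ∀ x ∈ X, jump s c x = 0 := by
  have hKc : Fintype.card {x // x ∈ C} ≤ K := by rw [Fintype.card_coe]; exact hK
  obtain ⟨δ, hδ'⟩ : ∃ δ, δ = σ ^ 2 / 8 - Kc.card * (2 * (K + 1) * ε / σ) := ⟨_, rfl⟩
  have hδ0 : 0 < δ := by rw [hδ']; linarith
  have main : ∀ pre suf : List P, pre ++ suf = X →
      Ps Kc ι σ s c (stt H (fun l => l.1) pre) ≤ Ps Kc ι σ s c (fun l : {x // x ∈ C} => l.1) -
        (1 - ζ) * δ * (pre.map fun x => ‖jump s c x‖).sum := by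
    intro pre
    induction pre using List.reverseRecOn with
    | nil =>
      intro suf _
      simp [stt]
    | append_singleton pre p ih =>
      intro suf hs
      have e1 : pre ++ (p :: suf) = X := by rw [← hs]; simp
      have ih' := ih (p :: suf) e1
      have hp : p ∈ X := by rw [← e1]; simp
      obtain ⟨a1, a2⟩ := cur_at (H := H) (pre := pre) (suf := suf) (p := p) (by rw [e1]; exact hord) (by rw [e1]; exact hall)
        (by rw [e1]; exact hne)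
      have hxp := hlf p hp
      have hne' := hne p hp
      have h5 := pstep (cur := stt H (fun l => l.1) pre) (cur' := stp H (stt H (fun l => l.1) pre) p) ho hι hζ0 hζ1.le hs0 hκ h0 h1 hc hε hε1
        hM hκσ hxp (hk p hxp).2 (hk p hxp).1 (l := lb H p) (r := lb H (G.op p)) (fun h => hne' (lb_inj.1 h)) a1
        (by rw [a2]; unfold pr; rw [G.op_op]) (stp_left _ _) (stp_right hne') (fun a ha hb => stp_of_ne ha hb) hKc
      rw [stt_append]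
      rw [List.map_append, List.sum_append]
      simp only [List.map_cons, List.map_nil, List.sum_cons, List.sum_nil, add_zero]
      rw [← hδ'] at h5
      have e2 : stt H (stt H (fun l => l.1) pre) [p] = stp H (stt H (fun l => l.1) pre) p := rfl
      rw [e2]
      linarith
  have h2 := main X [] (by simp)
  have h3 : Ps Kc ι σ s c (stt H (fun l => l.1) X) = Ps Kc ι σ s c (fun l : {x // x ∈ C} => l.1) := by
    have e1 : stt H (fun l => l.1) X = fun l => (arcPerm H l).1 := by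
      funext l
      exact cur_end' hord hall hne l
    rw [e1]
    exact sum_congr rfl fun k _ => Pl_perm (arcPerm H) (fun l => l.1)
  rw [h3] at h2
  have h4 : 0 ≤ (X.map fun x => ‖jump s c x‖).sum := by
    apply List.sum_nonneg
    intro a ha
    obtain ⟨x, _, rfl⟩ := List.mem_map.1 ha
    exact norm_nonneg _
  have h5 : 0 < (1 - ζ) * δ := mul_pos (by linarith) hδ0
  have h6 : (X.map fun x => ‖jump s c x‖).sum ≤ 0 := by
    by_contra h
    push Not at h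
    have := mul_pos h5 h
    linarith
  intro x hx
  have h7 : ‖jump s c x‖ ≤ (X.map fun x => ‖jump s c x‖).sum :=
    List.single_le_sum (by
      intro a ha
      obtain ⟨x, _, rfl⟩ := List.mem_map.1 ha
      exact norm_nonneg _) _ (List.mem_map_of_mem hx)
  exact norm_le_zero_iff.1 (h7.trans h6)

end Pool.Agent.Helper61.GD
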