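import Mathlib

/-!
# One crossing: the mean difference over the live edges of a diagram
-/

set_option autoImplicit false

namespace Pool.Agent.Helper61.GD

open Finset

variable {E : Type*} [DecidableEq E]

/-- the mean difference of the values `G` on a set of edges -/
noncomputable def Ph (S : Finset E) (p : E → ℝ) (G : E → ℂ) : ℝ := ∑ a ∈ S, ∑ b ∈ S, p a * p b * ‖G a - G b‖

theorem Ph_insert2 {R : Finset E} {x y : E} (hx : x ∉ R) (hy : y ∉ R) (hxy : x ≠ y) (p : E → ℝ) (G : E → ℂ) :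
    Ph (insert x (insert y R)) p G = Ph R p G + 2 * ∑ b ∈ R, p b * (p x * ‖G x - G b‖ + p y * ‖G y - G b‖) +
      2 * (p x * p y) * ‖G x - G y‖ := by
  have hx' : x ∉ insert y R := by
    rw [mem_insert, not_or]
    exact ⟨hxy, hx⟩
  have key : ∀ f : E → ℝ, ∑ a ∈ insert x (insert y R), f a = f x + (f y + ∑ a ∈ R, f a) := by
    intro f
    rw [sum_insert hx', sum_insert hy]
  unfold Ph
  rw [key, key, key]
  have h1 : ∑ a ∈ R, ∑ b ∈ insert x (insert y R), p a * p b * ‖G a - G b‖ =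
      ∑ a ∈ R, p a * (p x * ‖G x - G a‖ + p y * ‖G y - G a‖) + ∑ a ∈ R, ∑ b ∈ R, p a * p b * ‖G a - G b‖ := by
    rw [← sum_add_distrib]
    refine sum_congr rfl fun a _ => ?_
    rw [key, norm_sub_rev (G a) (G x), norm_sub_rev (G a) (G y)]
    ring
  have h2 : ∑ b ∈ R, p b * (p x * ‖G x - G b‖ + p y * ‖G y - G b‖) =
      ∑ b ∈ R, p x * p b * ‖G x - G b‖ + ∑ b ∈ R, p y * p b * ‖G y - G b‖ := by
    rw [← sum_add_distrib]
    exact sum_congr rfl fun b _ => by ring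
  rw [h1, h2, sub_self, sub_self, norm_zero, norm_sub_rev (G y) (G x)]
  ring

/-- **One crossing.** The values change at two labels only. -/
theorem gstep {l r : E} [Fintype E] (hlr : l ≠ r) {p : E → ℝ} (hp : ∀ a, 0 ≤ p a) {α β t : ℝ} (hα : 0 ≤ α) (hα1 : α ≤ 1)
    (hβ : 0 ≤ β) (hβ1 : β ≤ 1) (ht : |1 - α - β| ≤ t) (hst : p l * α = p r * β) {G G' : E → ℂ}
    (hG : ∀ a, a ≠ l → a ≠ r → G' a = G a) {u w : ℂ} {e : ℝ}
    (hu : ‖u‖ ≤ e) (hw : ‖w‖ ≤ e) (hl : G' l = ((1 - α : ℝ) : ℂ) * G l + ((α : ℝ) : ℂ) * G r + u)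
    (hr : G' r = ((β : ℝ) : ℂ) * G l + ((1 - β : ℝ) : ℂ) * G r + w) :
    Ph univ p G' ≤ Ph univ p G - 2 * (1 - t) * (p l * p r) * ‖G r - G l‖ +
      2 * e * ((p l + p r) * ∑ b, p b) + 4 * e * (p l * p r) := by
  obtain ⟨R, hR⟩ : ∃ R : Finset E, R = (univ.erase l).erase r := ⟨_, rfl⟩
  have h1 : l ∉ R := by rw [hR]; simp
  have h2 : r ∉ R := by rw [hR]; simp
  have hU : (univ : Finset E) = insert l (insert r R) := by
    rw [hR]
    ext a
    simp only [mem_univ, mem_insert, mem_erase, ne_eq, and_true, true_iff]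
    tauto
  have hRG : ∀ a ∈ R, G' a = G a := by
    intro a ha
    rw [hR] at ha
    simp only [mem_erase, ne_eq, mem_univ, and_true] at ha
    exact hG a ha.2 ha.1
  have hPR : Ph R p G' = Ph R p G := by
    unfold Ph
    refine sum_congr rfl fun a ha => sum_congr rfl fun b hb => ?_
    rw [hRG a ha, hRG b hb]
  have he : 0 ≤ e := (norm_nonneg u).trans hu
  have hsum : ∑ b ∈ R, p b ≤ ∑ b, p b := sum_le_sum_of_subset_of_nonneg (subset_univ _) fun b _ _ => hp b
  have e1 : ∑ b ∈ R, p b * (p l * ‖G' l - G' b‖ + p r * ‖G' r - G' b‖) ≤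
      ∑ b ∈ R, p b * (p l * ‖G l - G b‖ + p r * ‖G r - G b‖) + e * ((p l + p r) * ∑ b ∈ R, p b) := by
    rw [mul_sum, mul_sum, ← sum_add_distrib]
    refine sum_le_sum fun b hb => ?_
    rw [hRG b hb]
    have n1 : ‖G' l - G b‖ ≤ (1 - α) * ‖G l - G b‖ + α * ‖G r - G b‖ + e := by
      have e0 : G' l - G b = ((1 - α : ℝ) : ℂ) * (G l - G b) + (α : ℝ) * (G r - G b) + u := by
        rw [hl]
        push_cast
        ring
      rw [e0]
      refine (norm_add_le _ _).trans (add_le_add ((norm_add_le _ _).trans (le_of_eq ?_)) hu)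
      rw [norm_mul, norm_mul, Complex.norm_real, Complex.norm_real, Real.norm_of_nonneg (by linarith : (0 : ℝ) ≤ 1 - α),
        Real.norm_of_nonneg hα]
    have n2 : ‖G' r - G b‖ ≤ β * ‖G l - G b‖ + (1 - β) * ‖G r - G b‖ + e := by
      have e0 : G' r - G b = ((β : ℝ) : ℂ) * (G l - G b) + ((1 - β : ℝ) : ℂ) * (G r - G b) + w := by
        rw [hr]
        push_cast
        ring
      rw [e0]
      refine (norm_add_le _ _).trans (add_le_add ((norm_add_le _ _).trans (le_of_eq ?_)) hw)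
      rw [norm_mul, norm_mul, Complex.norm_real, Complex.norm_real, Real.norm_of_nonneg (by linarith : (0 : ℝ) ≤ 1 - β),
        Real.norm_of_nonneg hβ]
    have m1 := mul_le_mul_of_nonneg_left n1 (mul_nonneg (hp b) (hp l))
    have m2 := mul_le_mul_of_nonneg_left n2 (mul_nonneg (hp b) (hp r))
    have m3 : p b * (p l * ‖G' l - G b‖ + p r * ‖G' r - G b‖) = p b * p l * ‖G' l - G b‖ + p b * p r * ‖G' r - G b‖ := by ring
    rw [m3]
    refine (add_le_add m1 m2).trans (le_of_eq ?_)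
    linear_combination (p b * (‖G r - G b‖ - ‖G l - G b‖)) * hst
  have e3 : ‖G' l - G' r‖ ≤ t * ‖G l - G r‖ + 2 * e := by
    have e0 : G' l - G' r = ((1 - α - β : ℝ) : ℂ) * (G l - G r) + (u - w) := by
      rw [hl, hr]
      push_cast
      ring
    rw [e0]
    refine (norm_add_le _ _).trans (add_le_add ?_ ?_)
    · rw [norm_mul, Complex.norm_real, Real.norm_eq_abs]
      exact mul_le_mul_of_nonneg_right ht (norm_nonneg _)
    · refine (norm_sub_le _ _).trans ?_
      linarith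
  have e4 := mul_le_mul_of_nonneg_left e3 (mul_nonneg (hp l) (hp r))
  have e5 : e * ((p l + p r) * ∑ b ∈ R, p b) ≤ e * ((p l + p r) * ∑ b, p b) :=
    mul_le_mul_of_nonneg_left (mul_le_mul_of_nonneg_left hsum (add_nonneg (hp l) (hp r))) he
  obtain ⟨T, hT⟩ : ∃ T, T = ∑ b, p b := ⟨_, rfl⟩
  rw [← hT] at e5 ⊢
  rw [hU, Ph_insert2 h1 h2 hlr, Ph_insert2 h1 h2 hlr, hPR, norm_sub_rev (G r) (G l)]
  nlinarith

end Pool.Agent.Helper61.GD
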